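import Pool.Agent.W837.GB.Defs

set_option autoImplicit false
open MeasureTheory ProbabilityTheory Filter Topology
open scoped NNReal Matrix ComplexOrder

namespace Pool.Agent.W427.GB

open Pool.Agent.W837.GB

theorem tg_eq {ι : Type} [Fintype ι] [DecidableEq ι] (M : Matrix ι ι ℂ) (δ : ℝ) (hδ : 0 < δ) :
    tg M δ = ∑ i, δ / ((Matrix.isHermitian_mul_conjTranspose_self M).eigenvalues i + δ ^ 2) := by
  set hA := Matrix.isHermitian_mul_conjTranspose_self M with hAdef
  have hl : ∀ i, 0 ≤ hA.eigenvalues i := fun i =>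
    (Matrix.posSemidef_self_mul_conjTranspose M).eigenvalues_nonneg i
  have hpos : ∀ i, 0 < hA.eigenvalues i + δ ^ 2 := fun i => by
    have := hl i
    positivity
  obtain ⟨U, hU⟩ : ∃ U : Matrix ι ι ℂ, U = (hA.eigenvectorUnitary : Matrix ι ι ℂ) := ⟨_, rfl⟩
  obtain ⟨l, hlE⟩ : ∃ l : ι → ℝ, l = hA.eigenvalues := ⟨_, rfl⟩
  have hU1 : U * star U = 1 := by
    rw [hU]
    exact Matrix.mem_unitaryGroup_iff.mp hA.eigenvectorUnitary.2
  have hU2 : star U * U = 1 := by
    rw [hU]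
    exact Matrix.mem_unitaryGroup_iff'.mp hA.eigenvectorUnitary.2
  have hsp : M * Mᴴ = U * Matrix.diagonal (fun i => ((l i : ℝ) : ℂ)) * star U := by
    have h1 := hA.spectral_theorem
    rw [Unitary.conjStarAlgAut_apply] at h1
    rw [hU, hlE]
    exact h1
  rw [← hlE] at hpos ⊢
  have hQ : Q M δ = U * Matrix.diagonal (fun i => ((l i + δ ^ 2 : ℝ) : ℂ)) *
      star U := by
    have h2 : Matrix.diagonal (fun i => ((l i + δ ^ 2 : ℝ) : ℂ)) =
        Matrix.diagonal (fun i => ((l i : ℝ) : ℂ)) +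
          ((δ ^ 2 : ℝ) : ℂ) • (1 : Matrix ι ι ℂ) := by
      rw [← Matrix.diagonal_one, ← Matrix.diagonal_smul, Matrix.diagonal_add]
      congr 1
      ext i
      simp
    rw [Q, hsp, h2, mul_add, add_mul]
    congr 1
    rw [Matrix.mul_smul, Matrix.smul_mul, mul_one, hU1]
  have hinv : (Q M δ)⁻¹ = U * Matrix.diagonal (fun i =>
      ((l i + δ ^ 2 : ℝ) : ℂ)⁻¹) * star U := by
    apply Matrix.inv_eq_right_inv
    rw [hQ]
    calc U * Matrix.diagonal (fun i => ((l i + δ ^ 2 : ℝ) : ℂ)) * star U *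
          (U * Matrix.diagonal (fun i => ((l i + δ ^ 2 : ℝ) : ℂ)⁻¹) * star U)
        = U * Matrix.diagonal (fun i => ((l i + δ ^ 2 : ℝ) : ℂ)) * (star U * U) *
          Matrix.diagonal (fun i => ((l i + δ ^ 2 : ℝ) : ℂ)⁻¹) * star U := by
          simp only [Matrix.mul_assoc]
      _ = 1 := by
          rw [hU2, mul_one, Matrix.mul_assoc U, Matrix.diagonal_mul_diagonal]
          have h3 : (fun i => ((l i + δ ^ 2 : ℝ) : ℂ) *
              ((l i + δ ^ 2 : ℝ) : ℂ)⁻¹) = fun _ => (1 : ℂ) := by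
            ext i
            exact mul_inv_cancel₀ (by exact_mod_cast (hpos i).ne')
          rw [h3, Matrix.diagonal_one, mul_one, hU1]
  rw [tg, hinv, Matrix.trace_mul_comm, ← Matrix.mul_assoc, hU2, one_mul, Matrix.trace_diagonal,
    Complex.re_sum, Finset.mul_sum]
  refine Finset.sum_congr rfl fun i _ => ?_
  rw [← Complex.ofReal_inv, Complex.ofReal_re]
  rfl

/-- a small rank makes the trace large -/
theorem tg_rank {ι : Type} [Fintype ι] [DecidableEq ι] (M : Matrix ι ι ℂ) (δ : ℝ) (hδ : 0 < δ) :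
    ((Fintype.card ι : ℝ) - M.rank) / δ ≤ tg M δ := by
  rw [tg_eq M δ hδ]
  set hA := Matrix.isHermitian_mul_conjTranspose_self M with hAdef
  have hl : ∀ i, 0 ≤ hA.eigenvalues i := fun i =>
    (Matrix.posSemidef_self_mul_conjTranspose M).eigenvalues_nonneg i
  have hr : M.rank = Fintype.card {i // hA.eigenvalues i ≠ 0} := by
    rw [← Matrix.rank_self_mul_conjTranspose M]
    exact hA.rank_eq_card_non_zero_eigs
  have hc : (Fintype.card ι : ℝ) = (Fintype.card {i // hA.eigenvalues i = 0} : ℝ) +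
      (Fintype.card {i // hA.eigenvalues i ≠ 0} : ℝ) := by
    have h1 := Fintype.card_subtype_compl (fun i => hA.eigenvalues i = 0)
    have h2 := Fintype.card_subtype_le (fun i => hA.eigenvalues i = 0)
    have h3 : Fintype.card {i // ¬ hA.eigenvalues i = 0} + Fintype.card
        {i // hA.eigenvalues i = 0} = Fintype.card ι := by omega
    rw [← h3]
    push_cast
    ring
  have h0 : ((Fintype.card ι : ℝ) - M.rank) = ((Finset.univ.filter
      fun i => hA.eigenvalues i = 0).card : ℝ) := by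
    rw [hr, hc, Fintype.card_subtype]
    ring
  rw [h0, div_eq_mul_inv, ← nsmul_eq_mul, ← Finset.sum_const, Finset.sum_filter]
  refine Finset.sum_le_sum fun i _ => ?_
  split_ifs with h
  · rw [h, zero_add]
    apply le_of_eq
    field_simp
  · have := hl i
    positivity

theorem dsinv (h1 : S_GMEAN) (h2 : S_REG) (_ : S_LDER) : S_DSINV := by
  intro n m a hm hDS
  obtain ⟨C, hC0, hC⟩ := h1 n m a hm hDS
  have hmR : (1 : ℝ) ≤ m := by exact_mod_cast hm
  have hm0 : (0 : ℝ) < m := by linarith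
  obtain ⟨δ, hδ⟩ : ∃ δ : ℝ, δ = 1 / (4 * m) := ⟨_, rfl⟩
  have hδ0 : 0 < δ := by rw [hδ]; positivity
  -- choose `N`
  obtain ⟨N, hN1, hN⟩ : ∃ N : ℕ, 1 ≤ N ∧ C / (N : ℝ) ^ 2 * (δ⁻¹ ^ 5 + δ⁻¹ ^ 7) ≤ 1 / 2 := by
    have h3 : 0 ≤ C * (δ⁻¹ ^ 5 + δ⁻¹ ^ 7) := by positivity
    obtain ⟨N, hN⟩ := exists_nat_ge (2 * (C * (δ⁻¹ ^ 5 + δ⁻¹ ^ 7)))
    refine ⟨N + 1, by omega, ?_⟩
    have h4 : (0 : ℝ) ≤ N := Nat.cast_nonneg _
    have h5 : (0 : ℝ) < ((N + 1 : ℕ) : ℝ) ^ 2 := by positivity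
    rw [div_mul_eq_mul_div, div_le_iff₀ h5]
    push_cast
    nlinarith
  obtain ⟨hint, hmean⟩ := hC N δ hN1 hδ0
  have hNR : (1 : ℝ) ≤ N := by exact_mod_cast hN1
  have : IsProbabilityMeasure (gam (Fin n × Fin N × Fin N)) := by
    unfold gam
    infer_instance
  obtain ⟨g, hg⟩ := exists_le_integral hint
  -- `ms δ ≤ 1`
  have hms : ms δ ≤ 1 := by
    unfold ms
    have : Real.sqrt (δ ^ 2 + 4) ≤ 2 + δ := by
      apply Real.sqrt_le_iff.mpr
      constructor
      · positivity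
      · nlinarith
    linarith
  have hE : (∫ g, tg (AN a N g) δ ∂(gam (Fin n × Fin N × Fin N))) / (m * N) ≤ 3 / 2 := by
    have := (abs_le.mp (hmean.trans hN)).2
    linarith
  have hmN : (0 : ℝ) < m * N := by positivity
  have hg2 : tg (AN a N g) δ ≤ 3 / 2 * (m * N) := hg.trans ((div_le_iff₀ hmN).mp hE)
  -- the rank
  have hrank : (m - 1) * N < (AN a N g).rank := by
    by_contra hcon
    have hcon' : (AN a N g).rank ≤ (m - 1) * N := by omega
    have h3 := tg_rank (AN a N g) δ hδ0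
    have h4 : ((AN a N g).rank : ℝ) ≤ ((m : ℝ) - 1) * N := by
      have : ((AN a N g).rank : ℝ) ≤ (((m - 1) * N : ℕ) : ℝ) := by exact_mod_cast hcon'
      rw [Nat.cast_mul, Nat.cast_sub hm, Nat.cast_one] at this
      exact this
    have h5 : (Fintype.card (Fin m × Fin N) : ℝ) = m * N := by simp
    have h6 : (N : ℝ) * (4 * m) ≤ tg (AN a N g) δ := by
      refine le_trans ?_ h3
      rw [h5, hδ, div_div_eq_mul_div, div_one]
      apply mul_le_mul_of_nonneg_right _ (by positivity)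
      linarith
    nlinarith
  -- regularity
  have hsum : AN a N g = ∑ j, Matrix.kronecker (a j)
      ((((Real.sqrt N)⁻¹ : ℝ) : ℂ) • Hm fun k l => g (j, k, l)) := by
    unfold AN W
    rw [Finset.smul_sum]
    refine Finset.sum_congr rfl fun j _ => ?_
    exact (Matrix.kronecker_smul _ _ _).symm
  rw [hsum] at hrank
  obtain ⟨T, hT⟩ := h2 n m N a hm hN1 ⟨_, hrank⟩
  exact ⟨N, T, hN1, hT⟩

end Pool.Agent.W427.GB
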