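import Pool.Agent.W837.GB.Defs

set_option autoImplicit false
open MeasureTheory ProbabilityTheory Filter Topology
open scoped NNReal Matrix ComplexOrder

namespace Pool.Agent.W427.GB

open Pool.Agent.W837.GB

theorem AN_herm (h3 : S_EB) {ν : Type} [Fintype ν] [DecidableEq ν] {n : ℕ}
    (α : Fin n → Matrix ν ν ℂ) (hα : ∀ j, (α j).IsHermitian) (N : ℕ)
    (g : Fin n × Fin N × Fin N → ℝ) : (AN α N g).IsHermitian := by
  unfold AN W
  have h1 : ∀ j, (Matrix.kronecker (α j) (Hm fun k l => g (j, k, l))).IsHermitian := by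
    intro j
    have h2 := ((h3 (Fin N)).1 (fun k l => g (j, k, l))).1
    rw [Matrix.IsHermitian]
    have h4 := Matrix.conjTranspose_kronecker (α j) (Hm fun k l => g (j, k, l))
    refine h4.trans ?_
    rw [(hα j).eq, h2.eq]
    rfl
  rw [Matrix.IsHermitian, Matrix.conjTranspose_smul, Matrix.conjTranspose_sum]
  congr 1
  · simp
  · exact Finset.sum_congr rfl fun j _ => (h1 j).eq

/-- the matrix unit `e_{yx} ⊗ 1` -/
def Eyx {ν : Type} [DecidableEq ν] (N : ℕ) (x y : ν) : Matrix (ν × Fin N) (ν × Fin N) ℂ :=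
  fun q p => if q.1 = y ∧ p.1 = x ∧ q.2 = p.2 then 1 else 0

theorem hs_Eyx {ν : Type} [Fintype ν] [DecidableEq ν] (N : ℕ) (x y : ν) :
    hs (Eyx N x y) = N := by
  unfold hs Eyx
  have h1 : ∀ q p : ν × Fin N, ‖(if q.1 = y ∧ p.1 = x ∧ q.2 = p.2 then (1 : ℂ) else 0)‖ ^ 2 =
      if q.1 = y then (if p.1 = x then (if q.2 = p.2 then (1 : ℝ) else 0) else 0) else 0 := by
    intro q p
    split_ifs <;> simp_all
  simp only [h1, Fintype.sum_prod_type]
  simp

theorem tr_eq {ν : Type} [Fintype ν] [DecidableEq ν] (N : ℕ) (x y : ν)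
    (K R : Matrix (ν × Fin N) (ν × Fin N) ℂ) :
    ∑ s : Fin N, (R * K * R) (x, s) (y, s) = Matrix.trace (K * (R * (Eyx N x y * R))) := by
  have h1 : Matrix.trace (K * (R * (Eyx N x y * R))) = Matrix.trace ((R * K * R) * Eyx N x y) := by
    rw [← Matrix.mul_assoc R, ← Matrix.mul_assoc K, Matrix.trace_mul_comm, ← Matrix.mul_assoc,
      ← Matrix.mul_assoc]
  rw [h1, Matrix.trace]
  simp only [Matrix.diag_apply]
  have h2 : ∀ p : ν × Fin N, ((R * K * R) * Eyx N x y) p p =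
      if p.1 = x then (R * K * R) p (y, p.2) else 0 := by
    intro p
    rw [Matrix.mul_apply]
    simp only [Eyx, Fintype.sum_prod_type]
    by_cases hp : p.1 = x
    · simp [hp]
      rw [Finset.sum_eq_single y]
      · simp
      · intro b _ hb
        simp [hb]
      · simp
    · simp [hp]
  simp only [h2, Fintype.sum_prod_type]
  rw [Finset.sum_eq_single x]
  · simp
  · intro b _ hb
    simp [hb]
  · simp

theorem rb (h0 : S_VAR) (h1 : S_RES) (h2 : S_RD) (h3 : S_EB) : S_RB := by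
  intro ν _ _ n α hα
  have hhs : ∀ j, 0 ≤ hs (α j) := fun j => by
    unfold hs
    positivity
  refine ⟨4 * ∑ j, hs (α j), by
    have := Finset.sum_nonneg (s := Finset.univ) (fun j _ => hhs j)
    positivity, ?_⟩
  intro N δ hN hδ x y
  have hN0 : (0 : ℝ) < N := by exact_mod_cast hN
  have hN0' : (N : ℂ) ≠ 0 := by exact_mod_cast hN0.ne'
  have hRD := h2 ν n α N δ hα hN hδ
  have hform : (fun g : Fin n × Fin N × Fin N → ℝ => pt (res (AN α N g) δ) x y) =
      fun g => (N : ℂ)⁻¹ * ∑ s : Fin N, res (AN α N g) δ (x, s) (y, s) := rfl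
  have hcd : ContDiff ℝ 1 (fun g : Fin n × Fin N × Fin N → ℝ => pt (res (AN α N g) δ) x y) := by
    rw [hform]
    exact contDiff_const.mul (ContDiff.sum fun s _ => (hRD (x, s) (y, s)).1)
  have hfd : ∀ (g : Fin n × Fin N × Fin N → ℝ) (j : Fin n) (k l : Fin N),
      fderiv ℝ (fun g : Fin n × Fin N × Fin N → ℝ => pt (res (AN α N g) δ) x y) g
        (Pi.single (j, k, l) 1) = (N : ℂ)⁻¹ * (-(((Real.sqrt N)⁻¹ : ℝ) : ℂ) *
        Matrix.trace (Matrix.kronecker (α j) (Eb k l) * (res (AN α N g) δ *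
          (Eyx N x y * res (AN α N g) δ)))) := by
    intro g j k l
    rw [hform]
    have hd : ∀ s : Fin N, DifferentiableAt ℝ
        (fun g : Fin n × Fin N × Fin N → ℝ => res (AN α N g) δ (x, s) (y, s)) g := fun s =>
      ((hRD (x, s) (y, s)).1.differentiable (by norm_num)) g
    have e1 : fderiv ℝ (fun g : Fin n × Fin N × Fin N → ℝ =>
        (N : ℂ)⁻¹ * ∑ s : Fin N, res (AN α N g) δ (x, s) (y, s)) g =
        (N : ℂ)⁻¹ • ∑ s : Fin N, fderiv ℝ (fun g : Fin n × Fin N × Fin N → ℝ =>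
          res (AN α N g) δ (x, s) (y, s)) g := by
      have e2 : HasFDerivAt (fun g : Fin n × Fin N × Fin N → ℝ =>
          ∑ s : Fin N, res (AN α N g) δ (x, s) (y, s))
          (∑ s : Fin N, fderiv ℝ (fun g : Fin n × Fin N × Fin N → ℝ =>
          res (AN α N g) δ (x, s) (y, s)) g) g :=
        HasFDerivAt.fun_sum fun s _ => (hd s).hasFDerivAt
      exact (e2.const_mul _).fderiv
    rw [e1, ContinuousLinearMap.smul_apply, ContinuousLinearMap.sum_apply, smul_eq_mul]
    congr 1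
    rw [← tr_eq, Finset.mul_sum]
    exact Finset.sum_congr rfl fun s _ => (hRD (x, s) (y, s)).2 g j k l
  -- the bound of the gradient
  have hgrad : ∀ g : Fin n × Fin N × Fin N → ℝ, ∑ i, ‖fderiv ℝ
      (fun g : Fin n × Fin N × Fin N → ℝ => pt (res (AN α N g) δ) x y) g (Pi.single i 1)‖ ^ 2 ≤
      2 * (∑ j, hs (α j)) / ((N : ℝ) ^ 2 * δ ^ 4) := by
    intro g
    obtain ⟨-, -, hR1, hR2⟩ := h1 (ν × Fin N) (AN α N g) δ (AN_herm h3 α hα N g) hδ
    set R := res (AN α N g) δ with hR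
    have hY : hs (R * (Eyx N x y * R)) ≤ N / δ ^ 2 / δ ^ 2 := by
      calc hs (R * (Eyx N x y * R)) ≤ hs (Eyx N x y * R) / δ ^ 2 := hR1 _ _
        _ ≤ (hs (Eyx N x y) / δ ^ 2) / δ ^ 2 := by
            gcongr
            exact hR2 _ _
        _ = N / δ ^ 2 / δ ^ 2 := by rw [hs_Eyx]
    rw [Fintype.sum_prod_type]
    simp only [Fintype.sum_prod_type]
    have hterm : ∀ j k l, ‖fderiv ℝ
        (fun g : Fin n × Fin N × Fin N → ℝ => pt (res (AN α N g) δ) x y) g
          (Pi.single (j, k, l) 1)‖ ^ 2 = ((N : ℝ) ^ 3)⁻¹ *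
        ‖Matrix.trace (Matrix.kronecker (α j) (Eb k l) * (R * (Eyx N x y * R)))‖ ^ 2 := by
      intro j k l
      rw [hfd g j k l, norm_mul, norm_mul, mul_pow, mul_pow, ← mul_assoc]
      congr 1
      rw [norm_inv, norm_neg, Complex.norm_natCast, Complex.norm_real, Real.norm_eq_abs, sq_abs,
        inv_pow, inv_pow, Real.sq_sqrt hN0.le, ← mul_inv]
      congr 1
    simp only [hterm, ← Finset.mul_sum]
    calc ((N : ℝ) ^ 3)⁻¹ * ∑ j, ∑ k, ∑ l,
          ‖Matrix.trace (Matrix.kronecker (α j) (Eb k l) * (R * (Eyx N x y * R)))‖ ^ 2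
        ≤ ((N : ℝ) ^ 3)⁻¹ * ∑ j, 2 * hs (α j) * (N / δ ^ 2 / δ ^ 2) := by
          apply mul_le_mul_of_nonneg_left _ (by positivity)
          refine Finset.sum_le_sum fun j _ => ?_
          refine ((h3 (Fin N)).2.2 ν (α j) (R * (Eyx N x y * R))).trans ?_
          exact mul_le_mul_of_nonneg_left hY (by have := hhs j; positivity)
      _ = 2 * (∑ j, hs (α j)) / ((N : ℝ) ^ 2 * δ ^ 4) := by
          rw [← Finset.sum_mul, ← Finset.mul_sum]
          field_simp
  have hfin := (h0 (Fin n × Fin N × Fin N) _ _ hcd hgrad).2.2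
  refine hfin.trans (le_of_eq ?_)
  ring

end Pool.Agent.W427.GB
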